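import Pool.Agent.H27.NearChain

set_option autoImplicit false

namespace Pool.Agent.Results.MP_053bca_co.AllAdmissible

theorem result :
    (∀ (G : Type) [Group G] [Finite G], Odd (Nat.card G) → (∃ a b : G, a * b ≠ b * a) →
      ∃ θ : Equiv.Perm G, (Set.range fun x => x * θ x).ncard = Nat.card G - 1) ∧
    (∃ (G : Type) (_ : Group G) (_ : Finite G), Odd (Nat.card G) ∧ (∃ a b : G, a * b ≠ b * a) ∧
      ∃ θ : Equiv.Perm G, (Set.range fun x => x * θ x).ncard = Nat.card G - 1) := by
  refine ⟨fun G _ _ h1 h2 => Pool.Agent.H27.NearChain.all_nonabelian h1 h2, ?_⟩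
  have ho : Odd (Nat.card Pool.Agent.H27.NearChain.Heis) := by
    rw [Pool.Agent.H27.NearChain.heis_card]; decide
  exact ⟨Pool.Agent.H27.NearChain.Heis, inferInstance, inferInstance, ho,
    Pool.Agent.H27.NearChain.heis_na,
    Pool.Agent.H27.NearChain.all_nonabelian ho Pool.Agent.H27.NearChain.heis_na⟩

end Pool.Agent.Results.MP_053bca_co.AllAdmissible
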